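import Mathlib

/-!
Holomorphic kernels, diagonal kernels, master certificates and complete Pick factors, for `g = 1`.
-/

set_option autoImplicit false

namespace Q93.DiagCert

open scoped ComplexConjugate ComplexOrder

/-- `f` is a kernel on `Ω`: it is a positive semidefinite function on `Ω × Ω`. -/
def IsKernel (Ω : Set ℂ) (f : ℂ → ℂ → ℂ) : Prop :=
  ∀ (n : ℕ) (z : Fin n → ℂ), (∀ i, z i ∈ Ω) → (Matrix.of fun i j => f (z i) (z j)).PosSemidef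

/-- `f` is a holomorphic kernel on `Ω`: a kernel, holomorphic in the first and antiholomorphic in
the second variable. -/
def IsHolomorphicKernel (Ω : Set ℂ) (f : ℂ → ℂ → ℂ) : Prop :=
  IsKernel Ω f ∧ (∀ w ∈ Ω, DifferentiableOn ℂ (fun z => f z w) Ω) ∧
    ∀ z ∈ Ω, DifferentiableOn ℂ (fun w => conj (f z w)) Ω

/-- `f` is diagonal with coefficients `c`: `f(z, w) = ∑ c_a z^a w̄^a` near the origin, with all
`c_a > 0`. -/
def IsDiagonalWith (f : ℂ → ℂ → ℂ) (c : ℕ → ℝ) : Prop :=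
  (∀ a, 0 < c a) ∧ ∃ r : ℝ, 0 < r ∧ ∀ z w : ℂ, ‖z‖ < r → ‖w‖ < r →
    HasSum (fun a => (c a : ℂ) * z ^ a * conj w ^ a) (f z w)

/-- `ϑ` is the master certificate of the coefficient sequence `k`: `ϑ_0 = 0`, `ϑ_1 = k_1` and
`ϑ_b = max {0, k_b - ∑_{u + v = b, u, v ≠ 0} ϑ_u k_v}` for `b ≥ 2`. -/
def IsMasterCertificate (k ϑ : ℕ → ℝ) : Prop :=
  ϑ 0 = 0 ∧ ϑ 1 = k 1 ∧ ∀ b, 2 ≤ b →
    ϑ b = max 0 (k b - ∑ p ∈ (Finset.HasAntidiagonal.antidiagonal b).filter (fun p => p.1 ≠ 0 ∧ p.2 ≠ 0),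
      ϑ p.1 * k p.2)

/-- `Ω_ϑ`, the interior of `{x : sup_b ϑ_b |x|^{2b} < ∞}`. -/
def Omega (ϑ : ℕ → ℝ) : Set ℂ :=
  interior {x | BddAbove (Set.range fun b : ℕ => ϑ b * ‖x‖ ^ (2 * b))}

/-- `Ω¹_ϑ`, the set of the `x ∈ Ω_ϑ` with `∑_{b ≠ 0} ϑ_b |x|^{2b} < 1` (the sum of a series with
non-negative terms, with values in `[0, ∞]`; note that `ϑ_0 = 0`). -/
noncomputable def Omega1 (ϑ : ℕ → ℝ) : Set ℂ :=
  {x | x ∈ Omega ϑ ∧ ∑' b : ℕ, ENNReal.ofReal (ϑ b * ‖x‖ ^ (2 * b)) < 1}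

/-- `s` is a complete Pick kernel on `Ω` normalized at `0`: a kernel with `s(z, 0) = 1`, without
zeros, such that `1 - 1 / s` is a kernel. -/
def IsNormalizedCP (Ω : Set ℂ) (s : ℂ → ℂ → ℂ) : Prop :=
  IsKernel Ω s ∧ (∀ z ∈ Ω, s z 0 = 1) ∧ (∀ z ∈ Ω, ∀ w ∈ Ω, s z w ≠ 0) ∧
    IsKernel Ω fun z w => 1 - 1 / s z w

end Q93.DiagCert
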