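import Pool.Agent.Q93.DiagCert.Defs

/-!
Basic operations on kernels.
-/

set_option autoImplicit false

namespace Q93.DiagCert

open scoped ComplexConjugate ComplexOrder
open Matrix Filter Topology

variable {Ω : Set ℂ} {f g : ℂ → ℂ → ℂ}

lemma IsKernel.add (hf : IsKernel Ω f) (hg : IsKernel Ω g) : IsKernel Ω fun z w => f z w + g z w :=
  fun n z hz => (hf n z hz).add (hg n z hz)

lemma IsKernel.mul (hf : IsKernel Ω f) (hg : IsKernel Ω g) : IsKernel Ω fun z w => f z w * g z w :=
  fun n z hz => (hf n z hz).hadamard (hg n z hz)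

lemma IsKernel.congr (hf : IsKernel Ω f) (h : ∀ z ∈ Ω, ∀ w ∈ Ω, g z w = f z w) :
    IsKernel Ω g := by
  intro n z hz
  have : (Matrix.of fun i j => g (z i) (z j)) = Matrix.of fun i j => f (z i) (z j) := by
    ext i j
    exact h _ (hz i) _ (hz j)
  rw [this]
  exact hf n z hz

/-- rank one kernels -/
lemma isKernel_rankOne (u : ℂ → ℂ) : IsKernel Ω fun z w => u z * conj (u w) := by
  intro n z _
  have : (Matrix.of fun i j => u (z i) * conj (u (z j))) =
      Matrix.vecMulVec (fun i => u (z i)) (star fun i => u (z i)) := by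
    ext i j
    simp [Matrix.vecMulVec_apply]
  rw [this]
  exact Matrix.posSemidef_vecMulVec_self_star _

lemma isKernel_const {c : ℝ} (hc : 0 ≤ c) : IsKernel Ω fun _ _ => (c : ℂ) := by
  have h := isKernel_rankOne (Ω := Ω) fun _ => ((Real.sqrt c : ℝ) : ℂ)
  refine h.congr fun z _ w _ => ?_
  rw [Complex.conj_ofReal, ← Complex.ofReal_mul, Real.mul_self_sqrt hc]

lemma IsKernel.smul (hf : IsKernel Ω f) {c : ℝ} (hc : 0 ≤ c) :
    IsKernel Ω fun z w => (c : ℂ) * f z w := (isKernel_const hc).mul hf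

lemma IsKernel.pow (hf : IsKernel Ω f) (m : ℕ) : IsKernel Ω fun z w => f z w ^ m := by
  induction m with
  | zero => simpa using isKernel_const (Ω := Ω) zero_le_one
  | succ m ih => simpa only [pow_succ] using ih.mul hf

lemma isKernel_sum {ι : Type} (s : Finset ι) (F : ι → ℂ → ℂ → ℂ) (hF : ∀ i ∈ s, IsKernel Ω (F i)) :
    IsKernel Ω fun z w => ∑ i ∈ s, F i z w := by
  classical
  induction s using Finset.induction_on with
  | empty => simpa using isKernel_const (Ω := Ω) le_rfl
  | insert a s ha ih =>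
    have := (hF a (Finset.mem_insert_self a s)).add
      (ih fun i hi => hF i (Finset.mem_insert_of_mem hi))
    refine this.congr fun z _ w _ => ?_
    rw [Finset.sum_insert ha]

/-- pointwise limits of kernels are kernels -/
lemma isKernel_of_tendsto {F : ℕ → ℂ → ℂ → ℂ} (hF : ∀ m, IsKernel Ω (F m))
    (h : ∀ z ∈ Ω, ∀ w ∈ Ω, Tendsto (fun m => F m z w) atTop (𝓝 (f z w))) : IsKernel Ω f := by
  intro n z hz
  have hherm : (Matrix.of fun i j => f (z i) (z j)).IsHermitian := by
    ext i j
    rw [Matrix.conjTranspose_apply, Matrix.of_apply, Matrix.of_apply]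
    have h1 : Tendsto (fun m => star (F m (z j) (z i))) atTop (𝓝 (star (f (z j) (z i)))) :=
      (continuous_star.tendsto _).comp (h _ (hz j) _ (hz i))
    have h2 : (fun m => star (F m (z j) (z i))) = fun m => F m (z i) (z j) := by
      ext m
      exact ((hF m n z hz).1.apply i j)
    rw [h2] at h1
    exact tendsto_nhds_unique h1 (h _ (hz i) _ (hz j))
  refine Matrix.PosSemidef.of_dotProduct_mulVec_nonneg hherm fun c => ?_
  have hlim : Tendsto (fun m => star c ⬝ᵥ (Matrix.of fun i j => F m (z i) (z j)) *ᵥ c) atTop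
      (𝓝 (star c ⬝ᵥ (Matrix.of fun i j => f (z i) (z j)) *ᵥ c)) := by
    simp only [dotProduct, Matrix.mulVec, Matrix.of_apply]
    refine tendsto_finsetSum _ fun i _ => Tendsto.const_mul _ ?_
    refine tendsto_finsetSum _ fun j _ => Tendsto.mul_const _ ?_
    exact h _ (hz i) _ (hz j)
  exact ge_of_tendsto' hlim fun m => (hF m n z hz).dotProduct_mulVec_nonneg c

/-- the geometric series -/
lemma isKernel_geom (hf : IsKernel Ω f) (h1 : ∀ z ∈ Ω, ∀ w ∈ Ω, ‖f z w‖ < 1) :
    IsKernel Ω fun z w => (1 - f z w)⁻¹ := by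
  refine isKernel_of_tendsto (F := fun m z w => ∑ i ∈ Finset.range m, f z w ^ i)
    (fun m => isKernel_sum _ (fun i z w => f z w ^ i) fun i _ => hf.pow i) fun z hz w hw => ?_
  exact (hasSum_geometric_of_norm_lt_one (h1 z hz w hw)).tendsto_sum_nat

/-- Cauchy–Schwarz for kernels -/
lemma IsKernel.norm_sq_le (hf : IsKernel Ω f) {z w : ℂ} (hz : z ∈ Ω) (hw : w ∈ Ω) :
    ‖f z w‖ ^ 2 ≤ (f z z).re * (f w w).re := by
  have h := hf 2 ![z, w] (by intro i; fin_cases i <;> simp [hz, hw])
  have hdet := h.det_nonneg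
  rw [Matrix.det_fin_two] at hdet
  simp only [Matrix.of_apply, Matrix.cons_val_zero, Matrix.cons_val_one] at hdet
  have h00 := h.diag_nonneg (i := 0)
  have h11 := h.diag_nonneg (i := 1)
  simp only [Matrix.of_apply, Matrix.cons_val_zero, Matrix.cons_val_one] at h00 h11
  have hc : f w z = conj (f z w) := by
    have := h.1.apply 1 0
    simpa using this.symm
  rw [hc, Complex.mul_conj, Complex.normSq_eq_norm_sq] at hdet
  have h2 := (Complex.nonneg_iff.1 hdet).1
  rw [Complex.sub_re, Complex.mul_re, Complex.ofReal_re] at h2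
  have hi0 : (f z z).im = 0 := ((Complex.nonneg_iff.1 h00).2).symm
  rw [hi0, zero_mul, sub_zero] at h2
  linarith

end Q93.DiagCert
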