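import Pool.Agent.Q93.DiagCert.Ker

/-!
The example.
-/

set_option autoImplicit false

namespace Q93.DiagCert

open scoped ComplexConjugate ComplexOrder
open Matrix Filter Topology

/-- the unit disc -/
abbrev 𝔻 : Set ℂ := Metric.ball 0 1

/-- the kernel `k = 1 + (1/2) x / (1 - x)`, `x = z w̄` -/
noncomputable def kk (z w : ℂ) : ℂ := 1 + 1 / 2 * (z * conj w / (1 - z * conj w))

/-- the rank one kernel `h` -/
noncomputable def hh (z w : ℂ) : ℂ := 1 / 12 * ((z + z ^ 2) * conj (w + w ^ 2))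

/-- the complete Pick kernel `s = k / (1 - h)` -/
noncomputable def ss (z w : ℂ) : ℂ := kk z w / (1 - hh z w)

/-- `1 - 1 / s` -/
noncomputable def pp (z w : ℂ) : ℂ :=
  hh z w + ((1 / 2 * (z * conj w) + 1 / 6 * (z * conj w) ^ 2) +
    1 / 12 * ((z * conj w) ^ 2 * (1 / 2 * (1 - 1 / 2 * (z * conj w))⁻¹ * ((1 - z) * conj (1 - w)))))

lemma norm_x {z w : ℂ} (hz : z ∈ 𝔻) (hw : w ∈ 𝔻) : ‖z * conj w‖ < 1 := by
  rw [mem_ball_zero_iff] at hz hw
  rw [norm_mul, RCLike.norm_conj]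
  calc ‖z‖ * ‖w‖ ≤ ‖z‖ * 1 := by gcongr
    _ < 1 := by linarith

lemma one_sub_x_ne {z w : ℂ} (hz : z ∈ 𝔻) (hw : w ∈ 𝔻) : 1 - z * conj w ≠ 0 := by
  intro h
  have := norm_x hz hw
  rw [← sub_eq_zero.1 h, norm_one] at this
  exact lt_irrefl _ this

lemma two_sub_x_ne {z w : ℂ} (hz : z ∈ 𝔻) (hw : w ∈ 𝔻) : 2 - z * conj w ≠ 0 := by
  intro h
  have := norm_x hz hw
  rw [← sub_eq_zero.1 h] at this
  norm_num at this

lemma norm_f {z : ℂ} (hz : z ∈ 𝔻) : ‖z + z ^ 2‖ ≤ 2 := by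
  rw [mem_ball_zero_iff] at hz
  calc ‖z + z ^ 2‖ ≤ ‖z‖ + ‖z ^ 2‖ := norm_add_le _ _
    _ = ‖z‖ + ‖z‖ ^ 2 := by rw [norm_pow]
    _ ≤ 2 := by nlinarith [norm_nonneg z]

lemma norm_hh {z w : ℂ} (hz : z ∈ 𝔻) (hw : w ∈ 𝔻) : ‖hh z w‖ ≤ 1 / 3 := by
  unfold hh
  rw [norm_mul, norm_mul, RCLike.norm_conj]
  have h1 := norm_f hz
  have h2 := norm_f hw
  have h3 : ‖z + z ^ 2‖ * ‖w + w ^ 2‖ ≤ 2 * 2 := by gcongr
  have h4 : ‖(1 / 12 : ℂ)‖ = 1 / 12 := by norm_num
  rw [h4]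
  linarith

lemma one_sub_hh_ne {z w : ℂ} (hz : z ∈ 𝔻) (hw : w ∈ 𝔻) : 1 - hh z w ≠ 0 := by
  intro h
  have := norm_hh hz hw
  rw [← sub_eq_zero.1 h, norm_one] at this
  norm_num at this

lemma kk_eq {z w : ℂ} (hz : z ∈ 𝔻) (hw : w ∈ 𝔻) :
    kk z w = (2 - z * conj w) / (2 * (1 - z * conj w)) := by
  have := one_sub_x_ne hz hw
  unfold kk
  field_simp
  ring

lemma kk_ne {z w : ℂ} (hz : z ∈ 𝔻) (hw : w ∈ 𝔻) : kk z w ≠ 0 := by
  rw [kk_eq hz hw]
  exact div_ne_zero (two_sub_x_ne hz hw) (mul_ne_zero two_ne_zero (one_sub_x_ne hz hw))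

lemma ss_ne {z w : ℂ} (hz : z ∈ 𝔻) (hw : w ∈ 𝔻) : ss z w ≠ 0 :=
  div_ne_zero (kk_ne hz hw) (one_sub_hh_ne hz hw)

lemma pp_eq {z w : ℂ} (hz : z ∈ 𝔻) (hw : w ∈ 𝔻) : 1 - 1 / ss z w = pp z w := by
  have h1 := one_sub_x_ne hz hw
  have h2 := two_sub_x_ne hz hw
  have h3 : (1 - 1 / 2 * (z * conj w))⁻¹ = 2 / (2 - z * conj w) := by
    rw [inv_eq_one_div]
    have : 1 - 1 / 2 * (z * conj w) = (2 - z * conj w) / 2 := by ring
    rw [this, one_div_div]
  unfold ss pp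
  rw [h3, one_div_div, kk_eq hz hw, div_div_eq_mul_div]
  unfold hh
  simp only [map_add, map_sub, map_one, map_pow]
  field_simp
  ring

lemma pp_kernel : IsKernel 𝔻 pp := by
  have hx : IsKernel 𝔻 fun z w => z * conj w := isKernel_rankOne (fun z => z)
  have hh1 : IsKernel 𝔻 hh := by
    have := (isKernel_rankOne (Ω := 𝔻) (fun z => z + z ^ 2)).smul (c := 1 / 12) (by norm_num)
    exact this.congr fun z _ w _ => by unfold hh; push_cast; ring
  have h2 : IsKernel 𝔻 fun z w => 1 / 2 * (z * conj w) + 1 / 6 * (z * conj w) ^ 2 := by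
    have := (hx.smul (c := 1 / 2) (by norm_num)).add ((hx.pow 2).smul (c := 1 / 6) (by norm_num))
    exact this.congr fun z _ w _ => by push_cast; ring
  have h3 : IsKernel 𝔻 fun z w => (1 - 1 / 2 * (z * conj w))⁻¹ := by
    have h := hx.smul (c := 1 / 2) (by norm_num)
    have h4 := isKernel_geom h fun z hz w hw => by
      have := norm_x hz hw
      rw [norm_mul, Complex.norm_real]
      norm_num
      rw [norm_mul, RCLike.norm_conj] at this
      linarith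
    exact h4.congr fun z _ w _ => by push_cast; ring
  have h4 : IsKernel 𝔻 fun z w => (1 - z) * conj (1 - w) := isKernel_rankOne (fun z => 1 - z)
  have h5 := ((hx.pow 2).mul ((h3.smul (c := 1 / 2) (by norm_num)).mul h4)).smul
    (c := 1 / 12) (by norm_num)
  refine (hh1.add (h2.add h5)).congr fun z _ w _ => ?_
  unfold pp
  push_cast
  ring

lemma pp_diag {z : ℂ} (hz : z ∈ 𝔻) : (pp z z).re < 1 := by
  rw [← pp_eq hz hz]
  have hz' := hz
  rw [mem_ball_zero_iff] at hz'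
  set t : ℝ := ‖z‖ ^ 2 with ht
  set h : ℝ := 1 / 12 * ‖z + z ^ 2‖ ^ 2 with hh'
  have ht1 : t < 1 := by
    rw [ht]
    nlinarith [norm_nonneg z]
  have hh1 : h < 1 := by
    have := norm_f hz
    rw [hh']
    nlinarith [norm_nonneg (z + z ^ 2)]
  have e1 : z * conj z = (t : ℂ) := by
    rw [Complex.mul_conj, Complex.normSq_eq_norm_sq]
  have e2 : hh z z = (h : ℂ) := by
    unfold hh
    rw [Complex.mul_conj, Complex.normSq_eq_norm_sq, hh']
    push_cast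
    ring
  have e3 : 1 / ss z z = ((2 * (1 - t) * (1 - h) / (2 - t) : ℝ) : ℂ) := by
    unfold ss
    rw [one_div_div, kk_eq hz hz, e1, e2, div_div_eq_mul_div]
    push_cast
    ring
  rw [e3, Complex.sub_re, Complex.one_re, Complex.ofReal_re]
  have : 0 < 2 * (1 - t) * (1 - h) / (2 - t) := by
    apply div_pos
    · apply mul_pos
      · linarith
      · linarith
    · linarith
  linarith

lemma pp_norm {z w : ℂ} (hz : z ∈ 𝔻) (hw : w ∈ 𝔻) : ‖pp z w‖ < 1 := by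
  have h := pp_kernel.norm_sq_le hz hw
  have h1 := pp_diag hz
  have h2 := pp_diag hw
  have h3 : 0 ≤ (pp z z).re := by
    have := (pp_kernel 1 ![z] (by intro i; fin_cases i; simpa using hz)).diag_nonneg (i := 0)
    simpa using (Complex.nonneg_iff.1 this).1
  have h4 : 0 ≤ (pp w w).re := by
    have := (pp_kernel 1 ![w] (by intro i; fin_cases i; simpa using hw)).diag_nonneg (i := 0)
    simpa using (Complex.nonneg_iff.1 this).1
  have h5 : ‖pp z w‖ ^ 2 < 1 := by nlinarith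
  nlinarith [norm_nonneg (pp z w)]

lemma ss_eq {z w : ℂ} (hz : z ∈ 𝔻) (hw : w ∈ 𝔻) : ss z w = (1 - pp z w)⁻¹ := by
  rw [← pp_eq hz hw]
  simp

lemma ss_kernel : IsKernel 𝔻 ss :=
  (isKernel_geom pp_kernel fun _ hz _ hw => pp_norm hz hw).congr fun _ hz _ hw => ss_eq hz hw

lemma kk_kernel : IsKernel 𝔻 kk := by
  have hx : IsKernel 𝔻 fun z w => z * conj w := isKernel_rankOne (fun z => z)
  have h1 := isKernel_geom hx fun z hz w hw => norm_x hz hw
  have h2 := (isKernel_const (Ω := 𝔻) zero_le_one).add ((hx.mul h1).smul (c := 1 / 2) (by norm_num))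
  refine h2.congr fun z _ w _ => ?_
  unfold kk
  push_cast
  ring

lemma hh_kernel : IsKernel 𝔻 hh := by
  have := (isKernel_rankOne (Ω := 𝔻) (fun z => z + z ^ 2)).smul (c := 1 / 12) (by norm_num)
  exact this.congr fun z _ w _ => by unfold hh; push_cast; ring

lemma zero_mem : (0 : ℂ) ∈ 𝔻 := by simp

lemma kk_diff {w : ℂ} (hw : w ∈ 𝔻) : DifferentiableOn ℂ (fun z => kk z w) 𝔻 := by
  unfold kk
  intro z hz
  have := one_sub_x_ne hz hw
  apply DifferentiableAt.differentiableWithinAt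
  fun_prop (disch := assumption)

lemma ss_diff {w : ℂ} (hw : w ∈ 𝔻) : DifferentiableOn ℂ (fun z => ss z w) 𝔻 := by
  unfold ss
  refine DifferentiableOn.div (kk_diff hw) ?_ fun z hz => one_sub_hh_ne hz hw
  unfold hh
  fun_prop

lemma kk_conj (z w : ℂ) : conj (kk z w) = kk w z := by
  unfold kk
  simp only [map_add, map_one, map_mul, map_div₀, map_sub, Complex.conj_conj, map_ofNat]
  ring

lemma hh_conj (z w : ℂ) : conj (hh z w) = hh w z := by
  unfold hh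
  simp only [map_add, map_one, map_mul, map_div₀, map_pow, Complex.conj_conj, map_ofNat]
  ring

lemma ss_conj (z w : ℂ) : conj (ss z w) = ss w z := by
  unfold ss
  rw [map_div₀, map_sub, map_one, kk_conj, hh_conj]

lemma kk_hol : IsHolomorphicKernel 𝔻 kk :=
  ⟨kk_kernel, fun _ hw => kk_diff hw, fun _ hz => by simpa only [kk_conj] using kk_diff hz⟩

lemma ss_hol : IsHolomorphicKernel 𝔻 ss :=
  ⟨ss_kernel, fun _ hw => ss_diff hw, fun _ hz => by simpa only [ss_conj] using ss_diff hz⟩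

/-- the coefficients of `k` -/
noncomputable def cc (a : ℕ) : ℝ := 1 / 2 + if a = 0 then 1 / 2 else 0

lemma cc_pos (a : ℕ) : 0 < cc a := by
  unfold cc
  split_ifs <;> norm_num

lemma cc_zero : cc 0 = 1 := by norm_num [cc]

lemma cc_succ {a : ℕ} (ha : a ≠ 0) : cc a = 1 / 2 := by simp [cc, ha]

lemma kk_diagonal : IsDiagonalWith kk cc := by
  refine ⟨cc_pos, 1, one_pos, fun z w hz hw => ?_⟩
  have hz' : z ∈ 𝔻 := mem_ball_zero_iff.2 hz
  have hw' : w ∈ 𝔻 := mem_ball_zero_iff.2 hw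
  have h1 := (hasSum_geometric_of_norm_lt_one (norm_x hz' hw')).mul_left (1 / 2 : ℂ)
  have h2 : HasSum (fun a : ℕ => if a = 0 then (1 / 2 : ℂ) else 0) (1 / 2) := hasSum_ite_eq 0 _
  have h3 := h1.add h2
  have e : (fun a => 1 / 2 * (z * conj w) ^ a + if a = 0 then (1 / 2 : ℂ) else 0) =
      fun a => (cc a : ℂ) * z ^ a * conj w ^ a := by
    ext a
    unfold cc
    by_cases ha : a = 0
    · simp only [ha, pow_zero, if_true]
      norm_num
    · simp only [ha, if_false, mul_pow]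
      push_cast
      ring
  rw [e] at h3
  have e2 : kk z w = 1 / 2 * (1 - z * conj w)⁻¹ + 1 / 2 := by
    have := one_sub_x_ne hz' hw'
    unfold kk
    field_simp
    ring
  rw [e2]
  exact h3

/-- the master certificate of `k` -/
noncomputable def th (b : ℕ) : ℝ := if b = 0 then 0 else (1 / 2) ^ b

lemma geom_aux (m : ℕ) : ∑ i ∈ Finset.range m, (1 / 2 : ℝ) ^ (i + 1) = 1 - (1 / 2) ^ m := by
  induction m with
  | zero => simp
  | succ m ih => rw [Finset.sum_range_succ, ih, pow_succ]; ring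

lemma th_master : IsMasterCertificate cc th := by
  refine ⟨by simp [th], by norm_num [th, cc], fun b hb => ?_⟩
  obtain ⟨m, rfl⟩ : ∃ m, b = m + 2 := ⟨b - 2, by omega⟩
  rw [Finset.sum_filter, Finset.Nat.sum_antidiagonal_eq_sum_range_succ
    (fun i j => if i ≠ 0 ∧ j ≠ 0 then th i * cc j else 0)]
  rw [Finset.sum_range_succ, Finset.sum_range_succ']
  have h1 : ∀ i ∈ Finset.range (m + 1), (if i + 1 ≠ 0 ∧ m + 2 - (i + 1) ≠ 0 then
      th (i + 1) * cc (m + 2 - (i + 1)) else 0) = 1 / 2 * (1 / 2) ^ (i + 1) := by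
    intro i hi
    rw [Finset.mem_range] at hi
    have h2 : m + 2 - (i + 1) ≠ 0 := by omega
    rw [if_pos ⟨Nat.succ_ne_zero i, h2⟩, cc_succ h2, th, if_neg (Nat.succ_ne_zero i)]
    ring
  rw [Finset.sum_congr rfl h1, ← Finset.mul_sum, geom_aux]
  have h3 : cc (m + 2) = 1 / 2 := cc_succ (by omega)
  rw [h3, th, if_neg (by omega)]
  simp only [ne_eq, not_true_eq_false, false_and, if_false, Nat.sub_self, and_false, add_zero]
  rw [max_eq_right]
  · rw [pow_succ (1 / 2 : ℝ) (m + 1)]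
    ring
  · have : (0 : ℝ) < (1 / 2) ^ (m + 1) := by positivity
    linarith

lemma omega1_subset : Omega1 th ⊆ 𝔻 := by
  rintro x ⟨-, hx⟩
  rw [mem_ball_zero_iff]
  by_contra hcon
  push Not at hcon
  have h1 : ∀ b : ℕ, ENNReal.ofReal ((1 / 2) ^ (b + 1)) ≤ ENNReal.ofReal (th (b + 1) * ‖x‖ ^ (2 * (b + 1))) := by
    intro b
    apply ENNReal.ofReal_le_ofReal
    rw [th, if_neg (Nat.succ_ne_zero b)]
    have : (1 : ℝ) ≤ ‖x‖ ^ (2 * (b + 1)) := one_le_pow₀ hcon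
    have h2 : (0 : ℝ) < (1 / 2) ^ (b + 1) := by positivity
    nlinarith
  have h2 : (∑' b : ℕ, ENNReal.ofReal ((1 / 2 : ℝ) ^ (b + 1))) = 1 := by
    rw [← ENNReal.ofReal_tsum_of_nonneg (fun b => by positivity)
      ((summable_nat_add_iff 1).2 summable_geometric_two)]
    have h3 : ∑' b : ℕ, (1 / 2 : ℝ) ^ (b + 1) = 1 := by
      have h4 : HasSum (fun b : ℕ => (1 / 2 : ℝ) ^ (b + 1)) 1 := by
        have := (hasSum_geometric_two).mul_right (1 / 2)
        simpa [pow_succ] using this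
      exact h4.tsum_eq
    rw [h3]
    simp
  have h3 : (1 : ENNReal) ≤ ∑' b : ℕ, ENNReal.ofReal (th b * ‖x‖ ^ (2 * b)) := by
    rw [← h2]
    calc (∑' b : ℕ, ENNReal.ofReal ((1 / 2 : ℝ) ^ (b + 1)))
        ≤ ∑' b : ℕ, ENNReal.ofReal (th (b + 1) * ‖x‖ ^ (2 * (b + 1))) := ENNReal.tsum_le_tsum h1
      _ ≤ _ := ENNReal.tsum_comp_le_tsum_of_injective (f := fun b : ℕ => b + 1)
          (add_left_injective 1) (fun b => ENNReal.ofReal (th b * ‖x‖ ^ (2 * b)))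
  exact absurd hx (not_lt.2 h3)

lemma ss_no_expansion (c : ℕ → ℂ) : ¬ ∃ r : ℝ, 0 < r ∧ ∀ z w : ℂ, ‖z‖ < r → ‖w‖ < r →
    HasSum (fun a => c a * z ^ a * conj w ^ a) (ss z w) := by
  rintro ⟨r, hr, hsum⟩
  -- a small positive real
  set t : ℝ := min r 1 / 2 with ht
  have ht0 : 0 < t := by positivity
  have htr : t < r := by
    have := min_le_left r 1
    rw [ht]; linarith
  have ht1 : t < 1 := by
    have := min_le_right r 1
    rw [ht]; linarith
  have hn : ‖(t : ℂ)‖ = t := by rw [Complex.norm_real, Real.norm_of_nonneg ht0.le]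
  have h1 := hsum t t (by rw [hn]; exact htr) (by rw [hn]; exact htr)
  have h2 := hsum (-t) (-t) (by rw [norm_neg, hn]; exact htr) (by rw [norm_neg, hn]; exact htr)
  have e : (fun a : ℕ => c a * (-(t : ℂ)) ^ a * conj (-(t : ℂ)) ^ a) =
      fun a : ℕ => c a * (t : ℂ) ^ a * conj (t : ℂ) ^ a := by
    ext a
    rw [mul_assoc, mul_assoc, ← mul_pow, ← mul_pow]
    simp
  rw [e] at h2
  have h3 := h1.unique h2
  have hm : (t : ℂ) ∈ 𝔻 := by rw [mem_ball_zero_iff, hn]; exact ht1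
  have hm' : (-(t : ℂ)) ∈ 𝔻 := by rw [mem_ball_zero_iff, norm_neg, hn]; exact ht1
  have h4 : kk (t : ℂ) t = kk (-t : ℂ) (-t) := by
    unfold kk
    simp
  unfold ss at h3
  rw [h4] at h3
  have h5 := kk_ne hm' hm'
  have h6 := one_sub_hh_ne hm hm
  have h7 := one_sub_hh_ne hm' hm'
  rw [div_eq_div_iff h6 h7] at h3
  have h8 := mul_left_cancel₀ h5 h3
  unfold hh at h8
  simp only [map_add, map_pow, map_neg, Complex.conj_ofReal] at h8
  have h9 : ((t : ℂ)) ^ 3 = 0 := by linear_combination (3 : ℂ) * h8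
  have h10 : (t : ℂ) = 0 := by simpa using h9
  exact ht0.ne' (by exact_mod_cast h10)

lemma ss_not_diagonal (c : ℕ → ℝ) : ¬ IsDiagonalWith ss c := by
  rintro ⟨-, h⟩
  exact ss_no_expansion (fun a => (c a : ℂ)) h

theorem main : ∃ (Ω : Set ℂ) (k h s : ℂ → ℂ → ℂ) (c ϑ : ℕ → ℝ),
    IsOpen Ω ∧ IsConnected Ω ∧ (0 : ℂ) ∈ Ω ∧
    IsHolomorphicKernel Ω k ∧ IsDiagonalWith k c ∧ c 0 = 1 ∧
    IsMasterCertificate c ϑ ∧ Omega1 ϑ ⊆ Ω ∧
    IsKernel Ω h ∧ IsHolomorphicKernel Ω s ∧ IsNormalizedCP Ω s ∧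
    (∀ z ∈ Ω, ∀ w ∈ Ω, k z w = (1 - h z w) * s z w) ∧
    (¬ ∃ c' : ℕ → ℝ, IsDiagonalWith s c') ∧
    ¬ ∃ (c' : ℕ → ℂ) (r : ℝ), 0 < r ∧ ∀ z w : ℂ, ‖z‖ < r → ‖w‖ < r →
      HasSum (fun a => c' a * z ^ a * conj w ^ a) (s z w) := by
  refine ⟨𝔻, kk, hh, ss, cc, th, Metric.isOpen_ball, ?_, zero_mem, kk_hol, kk_diagonal, cc_zero,
    th_master, omega1_subset, hh_kernel, ss_hol, ⟨ss_kernel, ?_, fun z hz w hw => ss_ne hz hw, ?_⟩,
    ?_, ?_, ?_⟩
  · exact (convex_ball (0 : ℂ) 1).isConnected ⟨0, zero_mem⟩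
  · intro z _
    unfold ss kk hh
    simp
  · exact pp_kernel.congr fun z hz w hw => pp_eq hz hw
  · intro z hz w hw
    have := one_sub_hh_ne hz hw
    unfold ss
    field_simp
  · rintro ⟨c, hc⟩
    exact ss_not_diagonal c hc
  · rintro ⟨c, hc⟩
    exact ss_no_expansion c hc

end Q93.DiagCert
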